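import Mathlib

/-!
# Kripke frames, full possibility frames and their first-order languages
-/

set_option autoImplicit false

open FirstOrder FirstOrder.Language

namespace Pool.Agent.Work.MP_156542_lc

universe u v

/-! ## Definitions -/

/-- Polymodal formulas with boxes indexed by `I`, built from propositional variables
`var 0, var 1, ...` by negation, conjunction and boxes. -/
inductive Form (I : Type u) : Type u
  | var : ℕ → Form I
  | neg : Form I → Form I
  | and : Form I → Form I → Form I
  | box : I → Form I → Form I

/-- A Kripke frame: a nonempty set with a binary relation for each index. -/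
structure KripkeFrame (I : Type u) : Type (max u (v + 1)) where
  W : Type v
  nonempty : Nonempty W
  R : I → W → W → Prop

/-- Truth of a formula at a point of a Kripke frame under a valuation. -/
def KripkeFrame.Sat {I : Type u} (F : KripkeFrame.{u, v} I) (V : ℕ → Set F.W) :
    F.W → Form I → Prop
  | x, .var p => x ∈ V p
  | x, .neg φ => ¬ F.Sat V x φ
  | x, .and φ ψ => F.Sat V x φ ∧ F.Sat V x ψ
  | x, .box i φ => ∀ y, F.R i x y → F.Sat V y φ

/-- Validity of a formula on a Kripke frame. -/
def KripkeFrame.Valid {I : Type u} (F : KripkeFrame.{u, v} I) (φ : Form I) : Prop :=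
  ∀ (V : ℕ → Set F.W) (x : F.W), F.Sat V x φ

/-- `X` is regular open for the refinement relation `ref` (`ref x y` reads: `x` refines `y`). -/
def IsRO {S : Type v} (ref : S → S → Prop) (X : Set S) : Prop :=
  X = {x | ∀ x', ref x' x → ∃ x'', ref x'' x' ∧ x'' ∈ X}

/-- The box operation of a binary relation on sets. -/
def boxSet {S : Type v} (R : S → S → Prop) (X : Set S) : Set S :=
  {x | ∀ y, R x y → y ∈ X}

/-- A full possibility frame: a nonempty partial order `(S, ref)` (`ref x y` reads: `x` refines
`y`) with binary relations `R i` such that the regular open sets are closed under each box. -/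
structure FullPossibilityFrame (I : Type u) : Type (max u (v + 1)) where
  S : Type v
  nonempty : Nonempty S
  ref : S → S → Prop
  refl : ∀ x, ref x x
  trans : ∀ x y z, ref x y → ref y z → ref x z
  antisymm : ∀ x y, ref x y → ref y x → x = y
  R : I → S → S → Prop
  closed : ∀ (i : I) (X : Set S), IsRO ref X → IsRO ref (boxSet (R i) X)

/-- Forcing of a formula at a point of a full possibility frame under a valuation. -/
def FullPossibilityFrame.Forces {I : Type u} (F : FullPossibilityFrame.{u, v} I)
    (V : ℕ → Set F.S) : F.S → Form I → Prop
  | x, .var p => x ∈ V p
  | x, .neg φ => ∀ x', F.ref x' x → ¬ F.Forces V x' φ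
  | x, .and φ ψ => F.Forces V x φ ∧ F.Forces V x ψ
  | x, .box i φ => ∀ y, F.R i x y → F.Forces V y φ

/-- Validity on a full possibility frame: forced at every point under every valuation by
regular open sets. -/
def FullPossibilityFrame.Valid {I : Type u} (F : FullPossibilityFrame.{u, v} I)
    (φ : Form I) : Prop :=
  ∀ V : ℕ → Set F.S, (∀ p, IsRO F.ref (V p)) → ∀ x : F.S, F.Forces V x φ

/-- Relation symbols of the first-order language of Kripke frames. -/
inductive KRel (I : Type u) : ℕ → Type u
  | R (i : I) : KRel I 2

/-- The first-order language (with equality) of Kripke frames: binary symbols `R i`. -/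
def kripkeLang (I : Type u) : Language := ⟨fun _ => Empty, KRel I⟩

/-- Relation symbols of the first-order language of possibility frames. -/
inductive PRel (I : Type u) : ℕ → Type u
  | R (i : I) : PRel I 2
  | ref : PRel I 2

/-- The first-order language (with equality) of possibility frames: binary symbols `R i` and a
binary symbol for refinement. -/
def possLang (I : Type u) : Language := ⟨fun _ => Empty, PRel I⟩

/-- A Kripke frame as a first-order structure. -/
@[instance_reducible] def KripkeFrame.str {I : Type u} (F : KripkeFrame.{u, v} I) : (kripkeLang I).Structure F.W where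
  funMap := fun f _ => Empty.elim f
  RelMap := fun r xs => match r with
    | KRel.R i => F.R i (xs 0) (xs 1)

/-- A full possibility frame as a first-order structure. -/
@[instance_reducible] def FullPossibilityFrame.str {I : Type u} (F : FullPossibilityFrame.{u, v} I) :
    (possLang I).Structure F.S where
  funMap := fun f _ => Empty.elim f
  RelMap := fun r xs => match r with
    | PRel.R i => F.R i (xs 0) (xs 1)
    | PRel.ref => F.ref (xs 0) (xs 1)

/-- The first-order sentence `α` holds in the Kripke frame `F`. -/
def KripkeFrame.Models {I : Type u} (F : KripkeFrame.{u, v} I) (α : (kripkeLang I).Sentence) :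
    Prop :=
  @Language.Sentence.Realize (kripkeLang I) F.W F.str α

/-- The first-order sentence `α` holds in the full possibility frame `F`. -/
def FullPossibilityFrame.Models {I : Type u} (F : FullPossibilityFrame.{u, v} I)
    (α : (possLang I).Sentence) : Prop :=
  @Language.Sentence.Realize (possLang I) F.S F.str α

end Pool.Agent.Work.MP_156542_lc
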