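import Pool.Agent.Work.MP_156542_lc.Defs

/-!
# The witness formula and the proof
-/

set_option autoImplicit false

open FirstOrder FirstOrder.Language

namespace Pool.Agent.Work.MP_156542_lc

universe u v

/-! ## Abbreviations -/

section Abbrev

variable {I : Type u}

/-- falsum -/
def bot : Form I := .and (.var 0) (.neg (.var 0))
/-- verum -/
def top : Form I := .neg bot
/-- diamond -/
def dia (i : I) (φ : Form I) : Form I := .neg (.box i (.neg φ))
/-- implication -/
def imp (φ ψ : Form I) : Form I := .neg (.and φ (.neg ψ))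
/-- disjunction -/
def dis (φ ψ : Form I) : Form I := .neg (.and (.neg φ) (.neg ψ))

/-- sees a dead end -/
def eta (i : I) : Form I := dia i (.box i bot)
/-- an `eta`-point with a successor that is neither a dead end nor an `eta`-point -/
def gam (i : I) : Form I := .and (eta i) (dia i (.and (.neg (eta i)) (dia i top)))
/-- the guard -/
def sig (i : I) : Form I := dia i (.and (.neg (eta i)) (dia i (eta i)))

/-- first axiom -/
def A1 (i : I) : Form I :=
  imp (.box i (imp (eta i) (.var 0)))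
    (dia i (.and (.neg (eta i))
      (.and (dia i (.and (gam i) (.var 0)))
        (dia i (.and (.and (eta i) (.neg (gam i))) (.var 0))))))

/-- second axiom -/
def A2 (i : I) : Form I :=
  imp (.and (dia i (.and (eta i) (.var 0))) (dia i (.and (eta i) (.var 1))))
    (dis (dia i (.and (.var 0) (.var 1)))
      (dis (dia i (.and (.var 0) (dia i (.and (eta i) (.var 1)))))
        (dia i (.and (.var 1) (dia i (.and (eta i) (.var 0)))))))

/-- third axiom -/
def A3 (i : I) : Form I :=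
  .box i (imp (.neg (eta i))
    (imp (dia i (.and (eta i) (dia i (.and (eta i) (.var 0)))))
      (.box i (imp (eta i) (dia i (.and (eta i) (.var 0)))))))

/-- fourth axiom (a relativised Loeb axiom) -/
def A4 (i : I) : Form I :=
  .box i (imp (eta i)
    (imp (dia i (.and (eta i) (.var 0)))
      (dia i (.and (.and (eta i) (.var 0)) (.neg (dia i (.and (eta i) (.var 0))))))))

/-- the formula -/
def wit (i : I) : Form I :=
  imp (sig i) (.and (.and (A1 i) (A2 i)) (.and (A3 i) (A4 i)))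

end Abbrev

/-! ## The Kripke side -/

section Kripke

variable {I : Type u} (F : KripkeFrame.{u, v} I) (V : ℕ → Set F.W) (x : F.W)

theorem sat_neg (φ : Form I) : F.Sat V x (.neg φ) ↔ ¬ F.Sat V x φ := Iff.rfl
theorem sat_and (φ ψ : Form I) : F.Sat V x (.and φ ψ) ↔ F.Sat V x φ ∧ F.Sat V x ψ := Iff.rfl
theorem sat_box (i : I) (φ : Form I) :
    F.Sat V x (.box i φ) ↔ ∀ y, F.R i x y → F.Sat V y φ := Iff.rfl
theorem sat_var (p : ℕ) : F.Sat V x (.var p) ↔ x ∈ V p := Iff.rfl
theorem sat_bot : ¬ F.Sat V x bot := by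
  simp [bot, sat_and, sat_neg]
theorem sat_top : F.Sat V x top := by
  simp only [top, sat_neg]
  exact sat_bot F V x
theorem sat_dia (i : I) (φ : Form I) :
    F.Sat V x (dia i φ) ↔ ∃ y, F.R i x y ∧ F.Sat V y φ := by
  simp only [dia, sat_neg, sat_box]
  push Not
  exact Iff.rfl
theorem sat_imp (φ ψ : Form I) : F.Sat V x (imp φ ψ) ↔ (F.Sat V x φ → F.Sat V x ψ) := by
  simp only [imp, sat_neg, sat_and]
  tauto
theorem sat_dis (φ ψ : Form I) : F.Sat V x (dis φ ψ) ↔ (F.Sat V x φ ∨ F.Sat V x ψ) := by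
  simp only [dis, sat_neg, sat_and]
  tauto

/-- `eta` semantically on Kripke frames -/
def KEta {W : Type v} (R : W → W → Prop) (x : W) : Prop := ∃ y, R x y ∧ ∀ z, ¬ R y z

theorem sat_eta (i : I) : F.Sat V x (eta i) ↔ KEta (F.R i) x := by
  simp only [eta, sat_dia, sat_box, sat_bot, KEta]

theorem sat_sig (i : I) : F.Sat V x (sig i) ↔
    ∃ y, F.R i x y ∧ ¬ KEta (F.R i) y ∧ ∃ z, F.R i y z ∧ KEta (F.R i) z := by
  simp only [sig, sat_dia, sat_neg, sat_and, sat_eta]

theorem kripke_no_sig (i : I) (h : F.Valid (wit i)) : ¬ F.Sat V x (sig i) := by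
  intro hs
  -- first valuation
  have h1 := h (fun _ => {y | F.R i x y ∧ KEta (F.R i) y}) x
  have hsg : ∀ V', F.Sat V' x (sig i) := by
    intro V'
    rw [sat_sig] at hs ⊢
    exact hs
  rw [wit, sat_imp] at h1
  have h1' := (h1 (hsg _)).1.1
  rw [A1, sat_imp] at h1'
  have h1'' := h1' (by
    rw [sat_box]
    intro y hy
    rw [sat_imp, sat_eta, sat_var]
    intro hy'
    exact ⟨hy, hy'⟩)
  rw [sat_dia] at h1''
  obtain ⟨t, hxt, ht, hta, htb⟩ := h1''
  rw [sat_neg, sat_eta] at ht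
  rw [sat_dia] at hta htb
  obtain ⟨y1, hty1, hy1, hy1q⟩ := hta
  obtain ⟨y2, hty2, ⟨hy2e, hy2⟩, hy2q⟩ := htb
  rw [sat_var] at hy1q hy2q
  obtain ⟨hxy1, he1⟩ := hy1q
  obtain ⟨hxy2, he2⟩ := hy2q
  -- gam does not depend on the valuation
  have hne : y1 ≠ y2 := by
    rintro rfl
    rw [sat_neg] at hy2
    exact hy2 hy1
  -- second valuation
  have h2 := h (fun p => if p = 0 then {y1} else {y2}) x
  rw [wit, sat_imp] at h2
  have h2' := (h2 (hsg _)).1.2
  rw [A2, sat_imp, sat_and, sat_dia, sat_dia] at h2'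
  have h2'' := h2' ⟨⟨y1, hxy1, by rw [sat_and, sat_eta]; exact ⟨he1, by simp [sat_var]⟩⟩,
    ⟨y2, hxy2, by rw [sat_and, sat_eta]; exact ⟨he2, by simp [sat_var]⟩⟩⟩
  -- key: if y sees z, both eta-successors of x and t, contradiction
  have key : ∀ y z, F.R i t y → F.R i t z → F.R i x z → KEta (F.R i) y → KEta (F.R i) z →
      F.R i y z → False := by
    intro y z hty htz hxz hey hez hyz
    have h3 := h (fun _ => {z}) x
    rw [wit, sat_imp] at h3
    obtain ⟨-, h33, h34⟩ := h3 (hsg _)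
    rw [A3, sat_box] at h33
    have h33' := h33 t hxt
    rw [sat_imp, sat_imp, sat_neg, sat_eta, sat_box] at h33'
    have h33'' := h33' ht (by
      rw [sat_dia]
      refine ⟨y, hty, ?_⟩
      rw [sat_and, sat_eta, sat_dia]
      refine ⟨hey, z, hyz, ?_⟩
      rw [sat_and, sat_eta, sat_var]
      exact ⟨hez, rfl⟩) z htz
    rw [sat_imp, sat_eta, sat_dia] at h33''
    obtain ⟨w, hzw, hw⟩ := h33'' hez
    rw [sat_and, sat_var] at hw
    have hwz : w = z := hw.2
    subst hwz
    rw [A4, sat_box] at h34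
    have h34' := h34 w hxz
    rw [sat_imp, sat_imp, sat_eta, sat_dia, sat_dia] at h34'
    obtain ⟨s, hws, hs1, hs2⟩ := h34' hez ⟨w, hzw, hw⟩
    rw [sat_and, sat_var] at hs1
    have hsw : s = w := hs1.2
    subst hsw
    rw [sat_neg, sat_dia] at hs2
    exact hs2 ⟨s, hws, hw⟩
  rw [sat_dis, sat_dis, sat_dia, sat_dia, sat_dia] at h2''
  rcases h2'' with ⟨w, -, hw⟩ | ⟨w, -, hw⟩ | ⟨w, -, hw⟩
  · rw [sat_and, sat_var, sat_var] at hw
    have e1 : w = y1 := hw.1
    have e2 : w = y2 := hw.2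
    exact hne (e1.symm.trans e2)
  · rw [sat_and, sat_var, sat_dia] at hw
    obtain ⟨hw1, z, hwz, hz⟩ := hw
    have e1 : w = y1 := hw1
    rw [sat_and, sat_var] at hz
    have e2 : z = y2 := hz.2
    subst e1 e2
    exact key _ _ hty1 hty2 hxy2 he1 he2 hwz
  · rw [sat_and, sat_var, sat_dia] at hw
    obtain ⟨hw1, z, hwz, hz⟩ := hw
    have e1 : w = y2 := hw1
    rw [sat_and, sat_var] at hz
    have e2 : z = y1 := hz.2
    subst e1 e2
    exact key _ _ hty2 hty1 hxy1 he2 he1 hwz

theorem kripke_valid_iff (i : I) : F.Valid (wit i) ↔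
    ∀ x : F.W, ¬ ∃ y, F.R i x y ∧ ¬ KEta (F.R i) y ∧ ∃ z, F.R i y z ∧ KEta (F.R i) z := by
  constructor
  · intro h x hx
    have := kripke_no_sig F (fun _ => ∅) x i h
    rw [sat_sig] at this
    exact this hx
  · intro h V x
    rw [wit, sat_imp, sat_sig]
    intro hx
    exact absurd hx (h x)

end Kripke

/-- The first-order correspondent over Kripke frames. -/
def kSent {I : Type u} (i : I) : (kripkeLang I).Sentence :=
  let R : (kripkeLang I).Relations 2 := KRel.R i
  ∀' ∼ (∃' ((R.boundedFormula₂ (&0) (&1)) ⊓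
    (∼ (∃' ((R.boundedFormula₂ (&1) (&2)) ⊓ ∀' ∼ (R.boundedFormula₂ (&2) (&3)))) ⊓
      ∃' ((R.boundedFormula₂ (&1) (&2)) ⊓
        ∃' ((R.boundedFormula₂ (&2) (&3)) ⊓ ∀' ∼ (R.boundedFormula₂ (&3) (&4)))))))

theorem kripke_models_iff {I : Type u} (i : I) (F : KripkeFrame.{u, v} I) :
    F.Models (kSent i) ↔
    ∀ x : F.W, ¬ ∃ y, F.R i x y ∧ ¬ KEta (F.R i) y ∧ ∃ z, F.R i y z ∧ KEta (F.R i) z := by
  let _ := F.str
  have hR : ∀ a b : F.W, Structure.RelMap (L := kripkeLang I) (KRel.R i : KRel I 2) ![a, b] ↔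
      F.R i a b := by
    intro a b
    rfl
  simp only [KripkeFrame.Models, kSent, Sentence.Realize, Formula.Realize,
    BoundedFormula.realize_all, BoundedFormula.realize_not, BoundedFormula.realize_ex,
    BoundedFormula.realize_inf, KEta]
  exact Iff.rfl


/-! ## General facts on full possibility frames -/

theorem closed_of {S : Type v} {ref R : S → S → Prop}
    (C1 : ∀ x x' y, ref x' x → R x' y → R x y)
    (hrefl : ∀ x, ref x x)
    (C3 : ∀ x y, R x y → ∃ x', ref x' x ∧ ∀ x'', ref x'' x' → R x'' y) (X : Set S) :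
    IsRO ref (boxSet R X) := by
  unfold IsRO
  ext x
  constructor
  · intro hx x' hx'
    exact ⟨x', hrefl x', fun y hy => hx y (C1 x x' y hx' hy)⟩
  · intro h y hxy
    obtain ⟨x', hx', h3⟩ := C3 x y hxy
    obtain ⟨x'', hx'', hb⟩ := h x' hx'
    exact hb y (h3 x'' hx'')

section Poss

variable {I : Type u} (F : FullPossibilityFrame.{u, v} I) (V : ℕ → Set F.S)

theorem ro_persist {X : Set F.S} (h : IsRO F.ref X) {x x' : F.S} (hx : x ∈ X)
    (hr : F.ref x' x) : x' ∈ X := by
  unfold IsRO at h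
  rw [h] at hx ⊢
  intro y hy
  exact hx y (F.trans _ _ _ hy hr)

theorem ro_of {X : Set F.S} (h : IsRO F.ref X) {x : F.S}
    (hx : ∀ x', F.ref x' x → ∃ x'', F.ref x'' x' ∧ x'' ∈ X) : x ∈ X := by
  unfold IsRO at h
  rw [h]
  exact hx

theorem ro_iff {X : Set F.S} (hp : ∀ x x', x ∈ X → F.ref x' x → x' ∈ X)
    (hd : ∀ x, (∀ x', F.ref x' x → ∃ x'', F.ref x'' x' ∧ x'' ∈ X) → x ∈ X) :
    IsRO F.ref X := by
  unfold IsRO
  ext x
  constructor
  · intro hx x' hx'
    exact ⟨x', F.refl x', hp x x' hx hx'⟩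
  · intro h
    exact hd x h

theorem ro_truth (hV : ∀ p, IsRO F.ref (V p)) (φ : Form I) :
    IsRO F.ref {x | F.Forces V x φ} := by
  induction φ with
  | var p => exact hV p
  | neg φ ih =>
    apply ro_iff
    · intro x x' hx hr y hy
      exact hx y (F.trans _ _ _ hy hr)
    · intro x h x' hx' hφ
      obtain ⟨x'', hx'', hn⟩ := h x' hx'
      exact hn x'' (F.refl _) (ro_persist F ih hφ hx'')
  | and φ ψ ih1 ih2 =>
    apply ro_iff
    · intro x x' hx hr
      exact ⟨ro_persist F ih1 hx.1 hr, ro_persist F ih2 hx.2 hr⟩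
    · intro x h
      refine ⟨ro_of F ih1 ?_, ro_of F ih2 ?_⟩
      · intro x' hx'
        obtain ⟨x'', h1, h2⟩ := h x' hx'
        exact ⟨x'', h1, h2.1⟩
      · intro x' hx'
        obtain ⟨x'', h1, h2⟩ := h x' hx'
        exact ⟨x'', h1, h2.2⟩
  | box i φ ih => exact F.closed i _ ih

variable (hV : ∀ p, IsRO F.ref (V p)) (hat : ∀ i x y y', F.R i x y → F.ref y' y → y' = y)

theorem forces_bot (x : F.S) : ¬ F.Forces V x bot := by
  intro h
  exact h.2 x (F.refl x) h.1

theorem forces_top (x : F.S) : F.Forces V x top := by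
  intro x' _ h
  exact forces_bot F V x' h

include hat in
theorem forces_dia (i : I) (φ : Form I) (x : F.S) :
    F.Forces V x (dia i φ) ↔ ∀ x', F.ref x' x → ∃ y, F.R i x' y ∧ F.Forces V y φ := by
  constructor
  · intro h x' hx'
    have h1 := h x' hx'
    by_contra hcon
    apply h1
    intro y hy y' hy' hφ
    apply hcon
    have := hat i x' y y' hy hy'
    subst this
    exact ⟨y', hy, hφ⟩
  · intro h x' hx' hb
    obtain ⟨y, hy, hφ⟩ := h x' hx'
    exact hb y hy y (F.refl y) hφ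

include hV in
theorem forces_imp (φ ψ : Form I) (x : F.S) :
    F.Forces V x (imp φ ψ) ↔ ∀ x', F.ref x' x → F.Forces V x' φ → F.Forces V x' ψ := by
  constructor
  · intro h x' hx' hφ
    apply ro_of F (ro_truth F V hV ψ)
    intro x'' hx''
    have h1 := h x'' (F.trans _ _ _ hx'' hx')
    by_contra hcon
    apply h1
    refine ⟨ro_persist F (ro_truth F V hV φ) hφ hx'', ?_⟩
    intro z hz hψ
    exact hcon ⟨z, hz, hψ⟩
  · intro h x' hx' hc
    exact hc.2 x' (F.refl x') (h x' hx' hc.1)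

theorem forces_and (φ ψ : Form I) (x : F.S) :
    F.Forces V x (.and φ ψ) ↔ F.Forces V x φ ∧ F.Forces V x ψ := Iff.rfl

theorem forces_box (i : I) (φ : Form I) (x : F.S) :
    F.Forces V x (.box i φ) ↔ ∀ y, F.R i x y → F.Forces V y φ := Iff.rfl

theorem forces_var (p : ℕ) (x : F.S) : F.Forces V x (.var p) ↔ x ∈ V p := Iff.rfl

theorem forces_neg (φ : Form I) (x : F.S) :
    F.Forces V x (.neg φ) ↔ ∀ x', F.ref x' x → ¬ F.Forces V x' φ := Iff.rfl

theorem forces_dis_of (φ ψ : Form I) (x : F.S)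
    (h : ∀ x', F.ref x' x → ∃ x'', F.ref x'' x' ∧ (F.Forces V x'' φ ∨ F.Forces V x'' ψ)) :
    F.Forces V x (dis φ ψ) := by
  intro x' hx' hc
  obtain ⟨x'', hx'', h1 | h1⟩ := h x' hx'
  · exact hc.1 x'' hx'' h1
  · exact hc.2 x'' hx'' h1

/-- a point without proper refinements -/
def IsAtomPt (x : F.S) : Prop := ∀ x', F.ref x' x → x' = x

variable {F}

theorem atom_neg {x : F.S} (ha : IsAtomPt F x) (φ : Form I) :
    F.Forces V x (.neg φ) ↔ ¬ F.Forces V x φ := by
  constructor
  · intro h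
    exact h x (F.refl x)
  · intro h x' hx'
    rw [ha x' hx']
    exact h

theorem atom_dia (hat : ∀ i x y y', F.R i x y → F.ref y' y → y' = y) {x : F.S}
    (ha : IsAtomPt F x) (i : I) (φ : Form I) :
    F.Forces V x (dia i φ) ↔ ∃ y, F.R i x y ∧ F.Forces V y φ := by
  rw [forces_dia F V hat]
  constructor
  · intro h
    exact h x (F.refl x)
  · intro h x' hx'
    rw [ha x' hx']
    exact h

theorem atom_imp {x : F.S} (ha : IsAtomPt F x) (φ ψ : Form I) :
    F.Forces V x (imp φ ψ) ↔ (F.Forces V x φ → F.Forces V x ψ) := by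
  unfold imp
  rw [atom_neg V ha, forces_and, atom_neg V ha]
  tauto

end Poss

/-! ## The base frame -/

/-- Points of the base frame: finite binary sequences, levels, nodes, a dead end, a loop. -/
inductive Pt : Type
  | fin (s : List Bool)
  | lev (n : ℕ)
  | node (n : ℕ) (b : Bool)
  | dead
  | loop

/-- refinement: extension of sequences, equality elsewhere -/
def Pt.ref : Pt → Pt → Prop
  | .fin s', .fin s => s <+: s'
  | .lev m, .lev n => m = n
  | .node m b, .node n c => m = n ∧ b = c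
  | .dead, .dead => True
  | .loop, .loop => True
  | _, _ => False

/-- `s` does not exclude the value `b` at place `n` -/
def comp (s : List Bool) (n : ℕ) (b : Bool) : Prop := ∀ c, s[n]? = some c → c = b

/-- accessibility in the base frame -/
def Pt.R : Pt → Pt → Prop
  | .fin _, .lev _ => True
  | .fin s, .node n b => comp s n b
  | .lev n, .node m _ => m = n
  | .node n _, .node m _ => m < n
  | .node _ _, .dead => True
  | .node _ b, .loop => b = false
  | .loop, .loop => True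
  | _, _ => False

theorem Pt.ref_refl (x : Pt) : x.ref x := by
  cases x <;> simp [Pt.ref]

theorem Pt.ref_trans (x y z : Pt) (h : x.ref y) (h' : y.ref z) : x.ref z := by
  cases x <;> cases y <;> cases z <;> simp_all [Pt.ref]
  exact h'.trans h

theorem Pt.ref_antisymm (x y : Pt) (h : x.ref y) (h' : y.ref x) : x = y := by
  cases x <;> cases y <;> simp_all [Pt.ref]
  exact h'.eq_of_length (le_antisymm h'.length_le h.length_le)

theorem comp_mono {s s' : List Bool} (h : s <+: s') {n : ℕ} {b : Bool} (hc : comp s' n b) :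
    comp s n b := by
  intro c hs
  apply hc
  obtain ⟨t, rfl⟩ := h
  rw [List.getElem?_append_left]
  · exact hs
  · by_contra hcon
    rw [List.getElem?_eq_none (by omega)] at hs
    cases hs

theorem comp_decide {s : List Bool} {n : ℕ} {b : Bool} (hc : comp s n b) :
    ∃ s', s <+: s' ∧ s'[n]? = some b := by
  rcases hs : s[n]? with _ | c
  · rw [List.getElem?_eq_none_iff] at hs
    refine ⟨s ++ List.replicate (n + 1 - s.length) b, List.prefix_append _ _, ?_⟩
    rw [List.getElem?_append_right hs, List.getElem?_replicate]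
    simp
    omega
  · refine ⟨s, List.prefix_rfl, ?_⟩
    rw [hs, hc c hs]

theorem decided_mono {s s' : List Bool} (h : s <+: s') {n : ℕ} {b : Bool}
    (hs : s[n]? = some b) : s'[n]? = some b := by
  obtain ⟨t, rfl⟩ := h
  rw [List.getElem?_append_left]
  · exact hs
  · by_contra hcon
    rw [List.getElem?_eq_none (by omega)] at hs
    cases hs

theorem comp_of_decided {s : List Bool} {n : ℕ} {b : Bool} (hs : s[n]? = some b) :
    comp s n b := by
  intro c hc
  rw [hs] at hc
  exact (Option.some.inj hc).symm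

theorem Pt.R_C1 (x x' y : Pt) (h : x'.ref x) (hR : x'.R y) : x.R y := by
  cases x <;> cases x' <;> simp [Pt.ref] at h
  · cases y <;> simp_all [Pt.R]
    exact comp_mono h hR
  all_goals cases y <;> simp_all [Pt.R]

theorem Pt.R_C2 (x y y' : Pt) (hR : x.R y) (h : y'.ref y) : y' = y := by
  cases y <;> cases y' <;> simp_all [Pt.ref, Pt.R]

theorem Pt.R_C3 (x y : Pt) (hR : x.R y) : ∃ x' : Pt, x'.ref x ∧ ∀ x'' : Pt, x''.ref x' → x''.R y := by
  cases x with
  | fin s =>
    cases y with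
    | lev n =>
      refine ⟨.fin s, Pt.ref_refl _, ?_⟩
      intro x'' h
      cases x'' <;> simp_all [Pt.ref, Pt.R]
    | node n b =>
      obtain ⟨s', hs', hd⟩ := comp_decide (s := s) (n := n) (b := b) hR
      refine ⟨.fin s', hs', ?_⟩
      intro x'' h
      cases x'' with
      | fin s'' => exact comp_of_decided (decided_mono h hd)
      | _ => simp [Pt.ref] at h
    | _ => simp [Pt.R] at hR
  | _ =>
    refine ⟨_, Pt.ref_refl _, ?_⟩
    intro x'' h
    cases x'' <;> simp [Pt.ref] at h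
    simp_all

/-- The base frame. -/
@[reducible] def F0 (I : Type u) : FullPossibilityFrame.{u, 0} I where
  S := Pt
  nonempty := ⟨.dead⟩
  ref := Pt.ref
  refl := Pt.ref_refl
  trans := Pt.ref_trans
  antisymm := Pt.ref_antisymm
  R := fun _ => Pt.R
  closed := fun _ X _ => closed_of Pt.R_C1 Pt.ref_refl Pt.R_C3 X


/-! ## Validity on the base frame -/

section Base

variable {I : Type u} (i : I) (V : ℕ → Set Pt)

theorem F0_hat : ∀ (i : I) (x y y' : (F0 I).S), (F0 I).R i x y → (F0 I).ref y' y → y' = y :=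
  fun _ x y y' => Pt.R_C2 x y y'

theorem F0_atom (x : Pt) (hx : ∀ s, x ≠ .fin s) : IsAtomPt (F0 I) x := by
  intro x' hx'
  cases x <;> cases x' <;> simp_all [F0, Pt.ref]

theorem F0_eta (x : Pt) : (F0 I).Forces V x (eta i) ↔ ∃ n b, x = .node n b := by
  unfold eta
  rw [forces_dia _ _ F0_hat]
  constructor
  · intro h
    obtain ⟨y, hy, hb⟩ := h x (Pt.ref_refl x)
    have hdead : ∀ z, ¬ Pt.R y z := by
      intro z hz
      exact forces_bot (F0 I) V z (hb z hz)
    cases x with
    | node n b => exact ⟨n, b, rfl⟩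
    | fin s =>
      cases y with
      | lev n => exact (hdead (.node n true) rfl).elim
      | node n b => exact (hdead .dead trivial).elim
      | _ => exact absurd hy (by simp [Pt.R])
    | lev n =>
      cases y with
      | node m b => exact (hdead .dead trivial).elim
      | _ => exact absurd hy (by simp [Pt.R])
    | dead => cases y <;> exact absurd hy (by simp [Pt.R])
    | loop =>
      cases y with
      | loop => exact (hdead .loop trivial).elim
      | _ => exact absurd hy (by simp [Pt.R])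
  · rintro ⟨n, b, rfl⟩ x' hx'
    have := F0_atom (I := I) (.node n b) (by simp) x' hx'
    subst this
    refine ⟨.dead, trivial, ?_⟩
    intro z hz
    cases z <;> exact absurd hz (by simp [Pt.R])

theorem F0_gam (x : Pt) : (F0 I).Forces V x (gam i) ↔ ∃ n, x = .node n false := by
  unfold gam
  rw [forces_and, F0_eta]
  constructor
  · rintro ⟨⟨n, b, rfl⟩, h⟩
    rw [atom_dia V F0_hat (F0_atom _ (by simp))] at h
    obtain ⟨y, hy, h1, h2⟩ := h
    cases y with
    | fin s => exact absurd hy (by simp [Pt.R])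
    | lev n => exact absurd hy (by simp [Pt.R])
    | node m c =>
      exfalso
      rw [atom_neg V (F0_atom _ (by simp)), F0_eta] at h1
      exact h1 ⟨_, _, rfl⟩
    | dead =>
      exfalso
      rw [atom_dia V F0_hat (F0_atom _ (by simp))] at h2
      obtain ⟨z, hz, -⟩ := h2
      cases z <;> exact absurd hz (by simp [Pt.R])
    | loop =>
      have hb : b = false := hy
      subst hb
      exact ⟨n, rfl⟩
  · rintro ⟨n, rfl⟩
    refine ⟨⟨n, false, rfl⟩, ?_⟩
    rw [atom_dia V F0_hat (F0_atom _ (by simp))]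
    refine ⟨.loop, rfl, ?_⟩
    rw [forces_and, atom_neg V (F0_atom _ (by simp)), F0_eta,
      atom_dia V F0_hat (F0_atom _ (by simp))]
    exact ⟨by simp, .loop, trivial, forces_top _ _ _⟩

theorem F0_sig (x : Pt) (h : (F0 I).Forces V x (sig i)) : ∃ s, x = .fin s := by
  unfold sig at h
  rw [forces_dia _ _ F0_hat] at h
  obtain ⟨y, hy, h1, h2⟩ := h x (Pt.ref_refl x)
  cases x with
  | fin s => exact ⟨s, rfl⟩
  | _ =>
    exfalso
    cases y with
    | fin s => exact absurd hy (by simp [Pt.R])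
    | lev n => exact absurd hy (by simp [Pt.R])
    | node m c =>
      rw [atom_neg V (F0_atom _ (by simp)), F0_eta] at h1
      exact h1 ⟨_, _, rfl⟩
    | dead =>
      rw [atom_dia V F0_hat (F0_atom _ (by simp))] at h2
      obtain ⟨z, hz, -⟩ := h2
      cases z <;> exact absurd hz (by simp [Pt.R])
    | loop =>
      rw [atom_dia V F0_hat (F0_atom _ (by simp))] at h2
      obtain ⟨z, hz, hz2⟩ := h2
      rw [F0_eta] at hz2
      obtain ⟨n, b, rfl⟩ := hz2
      exact absurd hz (by simp [Pt.R])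

variable (hV : ∀ p, IsRO (F0 I).ref (V p))

include hV

theorem F0_A1 (s : List Bool) : (F0 I).Forces V (.fin s) (A1 i) := by
  unfold A1
  rw [forces_imp _ _ hV]
  intro x hx hbox
  obtain ⟨s', rfl⟩ : ∃ s', x = .fin s' := by
    cases x <;> simp_all [F0, Pt.ref]
  rw [forces_box] at hbox
  have hq : ∀ n b, comp s' n b → Pt.node n b ∈ V 0 := by
    intro n b hc
    have h1 := hbox (.node n b) hc
    rw [atom_imp V (F0_atom _ (by simp)), F0_eta] at h1
    exact h1 ⟨_, _, rfl⟩
  rw [forces_dia _ _ F0_hat]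
  intro x' hx'
  obtain ⟨s'', rfl⟩ : ∃ s'', x' = .fin s'' := by
    cases x' <;> simp_all [F0, Pt.ref]
  have hn : ∀ b, comp s' s'.length b := by
    intro b c hc
    rw [List.getElem?_eq_none (le_refl _)] at hc
    cases hc
  refine ⟨.lev s'.length, trivial, ?_⟩
  rw [forces_and, forces_and, atom_neg V (F0_atom _ (by simp)), F0_eta,
    atom_dia V F0_hat (F0_atom _ (by simp)), atom_dia V F0_hat (F0_atom _ (by simp))]
  refine ⟨by simp, ⟨.node s'.length false, rfl, ?_, hq _ _ (hn _)⟩,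
    ⟨.node s'.length true, rfl, ⟨?_, ?_⟩, hq _ _ (hn _)⟩⟩
  · rw [F0_gam]
    exact ⟨_, rfl⟩
  · rw [F0_eta]
    exact ⟨_, _, rfl⟩
  · rw [atom_neg V (F0_atom _ (by simp)), F0_gam]
    simp

theorem F0_A2 (s : List Bool) : (F0 I).Forces V (.fin s) (A2 i) := by
  unfold A2
  rw [forces_imp _ _ hV]
  intro x hx hand
  obtain ⟨s0, rfl⟩ : ∃ s', x = .fin s' := by
    cases x <;> simp_all [F0, Pt.ref]
  rw [forces_and] at hand
  obtain ⟨ha, hb⟩ := hand
  apply forces_dis_of
  intro x' hx'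
  obtain ⟨s1, rfl⟩ : ∃ s', x' = .fin s' := by
    cases x' <;> simp_all [F0, Pt.ref]
  have hs01 : s0 <+: s1 := hx'
  -- first point
  rw [forces_dia _ _ F0_hat] at ha hb
  obtain ⟨y, hy, hye, hyq⟩ := ha _ hx'
  rw [F0_eta] at hye
  obtain ⟨n, b, rfl⟩ := hye
  obtain ⟨s2, hs12, hd2⟩ := comp_decide (s := s1) (n := n) (b := b) hy
  obtain ⟨z, hz, hze, hzq⟩ := hb (.fin s2) (hs01.trans hs12)
  rw [F0_eta] at hze
  obtain ⟨m, c, rfl⟩ := hze
  obtain ⟨s3, hs23, hd3⟩ := comp_decide (s := s2) (n := m) (b := c) hz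
  have hd2' : s3[n]? = some b := decided_mono hs23 hd2
  rw [forces_var] at hyq hzq
  have hsee : ∀ x' : Pt, x'.ref (.fin s3) → x'.R (.node n b) ∧ x'.R (.node m c) := by
    intro x' hx'
    cases x' with
    | fin s4 =>
      exact ⟨comp_of_decided (decided_mono hx' hd2'), comp_of_decided (decided_mono hx' hd3)⟩
    | _ => simp [Pt.ref] at hx'
  refine ⟨.fin s3, hs12.trans hs23, ?_⟩
  rcases lt_trichotomy n m with hlt | heq | hgt
  · right
    apply forces_dis_of
    intro x4 hx4
    refine ⟨x4, Pt.ref_refl _, Or.inr ?_⟩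
    rw [forces_dia _ _ F0_hat]
    intro x' hx'
    refine ⟨.node m c, (hsee x' (Pt.ref_trans _ _ _ hx' hx4)).2, hzq, ?_⟩
    rw [atom_dia V F0_hat (F0_atom _ (by simp))]
    refine ⟨.node n b, hlt, ?_, hyq⟩
    rw [F0_eta]
    exact ⟨_, _, rfl⟩
  · left
    subst heq
    have hbc : b = c := by
      rw [hd3] at hd2'
      exact (Option.some.inj hd2').symm
    subst hbc
    rw [forces_dia _ _ F0_hat]
    intro x' hx'
    exact ⟨.node n b, (hsee x' hx').1, hyq, hzq⟩
  · right
    apply forces_dis_of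
    intro x4 hx4
    refine ⟨x4, Pt.ref_refl _, Or.inl ?_⟩
    rw [forces_dia _ _ F0_hat]
    intro x' hx'
    refine ⟨.node n b, (hsee x' (Pt.ref_trans _ _ _ hx' hx4)).1, hyq, ?_⟩
    rw [atom_dia V F0_hat (F0_atom _ (by simp))]
    refine ⟨.node m c, hgt, ?_, hzq⟩
    rw [F0_eta]
    exact ⟨_, _, rfl⟩

theorem F0_A3 (s : List Bool) : (F0 I).Forces V (.fin s) (A3 i) := by
  unfold A3
  rw [forces_box]
  intro y hy
  rw [forces_imp _ _ hV]
  intro y' hy' hne
  obtain rfl := Pt.R_C2 _ _ _ hy hy'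
  cases y' with
  | lev n =>
    rw [atom_imp V (F0_atom _ (by simp)), atom_dia V F0_hat (F0_atom _ (by simp))]
    rintro ⟨z, hz, -, hz2⟩
    rw [forces_box]
    intro w hw
    cases z <;> simp [Pt.R] at hz
    cases w <;> simp [Pt.R] at hw
    rename_i a b c d
    rw [atom_imp V (F0_atom _ (by simp)), atom_dia V F0_hat (F0_atom _ (by simp))]
    intro _
    rw [atom_dia V F0_hat (F0_atom _ (by simp))] at hz2
    obtain ⟨u, hu, hu1, hu2⟩ := hz2
    rw [F0_eta] at hu1
    obtain ⟨m, e, rfl⟩ := hu1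
    refine ⟨.node m e, ?_, ?_, hu2⟩
    · subst hz hw
      exact hu
    · rw [F0_eta]
      exact ⟨_, _, rfl⟩
  | node n b =>
    rw [atom_neg V (F0_atom _ (by simp)), F0_eta] at hne
    exact absurd ⟨_, _, rfl⟩ hne
  | _ => exact absurd hy (by simp [Pt.R])

theorem F0_A4 (s : List Bool) : (F0 I).Forces V (.fin s) (A4 i) := by
  unfold A4
  rw [forces_box]
  intro y hy
  rw [forces_imp _ _ hV]
  intro y' hy' he
  obtain rfl := Pt.R_C2 _ _ _ hy hy'
  rw [F0_eta] at he
  obtain ⟨n, b, rfl⟩ := he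
  rw [atom_imp V (F0_atom _ (by simp)), atom_dia V F0_hat (F0_atom _ (by simp)),
    atom_dia V F0_hat (F0_atom _ (by simp))]
  rintro ⟨z, hz, hz1, hz2⟩
  rw [F0_eta] at hz1
  obtain ⟨m, c, rfl⟩ := hz1
  -- minimal level
  classical
  have hex : ∃ m, m < n ∧ ∃ c, Pt.node m c ∈ V 0 := ⟨m, hz, c, hz2⟩
  obtain ⟨hm1, c', hm2⟩ := Nat.find_spec hex
  refine ⟨.node (Nat.find hex) c', hm1, ⟨?_, hm2⟩, ?_⟩
  · rw [F0_eta]
    exact ⟨_, _, rfl⟩
  · rw [atom_neg V (F0_atom _ (by simp)), atom_dia V F0_hat (F0_atom _ (by simp))]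
    rintro ⟨w, hw, hw1, hw2⟩
    rw [F0_eta] at hw1
    obtain ⟨k, d, rfl⟩ := hw1
    have hk : k < Nat.find hex := hw
    exact Nat.find_min hex hk ⟨hk.trans hm1, d, hw2⟩

end Base

theorem F0_valid {I : Type u} (i : I) : (F0 I).Valid (wit i) := by
  intro V hV x
  unfold wit
  rw [forces_imp _ _ hV]
  intro x' hx' hs
  obtain ⟨s, rfl⟩ := F0_sig i V x' hs
  exact ⟨⟨F0_A1 i V hV s, F0_A2 i V hV s⟩, ⟨F0_A3 i V hV s, F0_A4 i V hV s⟩⟩


/-! ## The ultrapower -/

section Ultra

variable (I : Type u)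

/-- carrier of the ultrapower -/
abbrev MS : Type := ((Filter.hyperfilter ℕ : Ultrafilter ℕ) : Filter ℕ).Product (fun _ : ℕ => Pt)

/-- class of a sequence -/
noncomputable abbrev mk (f : ℕ → Pt) : MS :=
  @Quotient.mk' _ (((Filter.hyperfilter ℕ : Ultrafilter ℕ) : Filter ℕ).productSetoid
    (fun _ : ℕ => Pt)) f

/-- lift of a binary relation to the ultrapower -/
def lift (r : Pt → Pt → Prop) : MS → MS → Prop :=
  fun a b => ∃ f g : ℕ → Pt, mk f = a ∧ mk g = b ∧
    ∀ᶠ n in ((Filter.hyperfilter ℕ : Ultrafilter ℕ) : Filter ℕ), r (f n) (g n)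

theorem mk_eq {f g : ℕ → Pt} : mk f = mk g ↔
    ∀ᶠ n in ((Filter.hyperfilter ℕ : Ultrafilter ℕ) : Filter ℕ), f n = g n := by
  exact @Quotient.eq' _ (((Filter.hyperfilter ℕ : Ultrafilter ℕ) : Filter ℕ).productSetoid
    (fun _ : ℕ => Pt)) f g

theorem lift_mk (r : Pt → Pt → Prop) (f g : ℕ → Pt) : lift r (mk f) (mk g) ↔
    ∀ᶠ n in ((Filter.hyperfilter ℕ : Ultrafilter ℕ) : Filter ℕ), r (f n) (g n) := by
  constructor
  · rintro ⟨f', g', hf, hg, h⟩
    rw [mk_eq] at hf hg
    filter_upwards [hf, hg, h] with n h1 h2 h3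
    rwa [h1, h2] at h3
  · intro h
    exact ⟨f, g, rfl, rfl, h⟩

theorem mk_surj (a : MS) : ∃ f, mk f = a := @Quotient.exists_rep _
  (((Filter.hyperfilter ℕ : Ultrafilter ℕ) : Filter ℕ).productSetoid (fun _ : ℕ => Pt)) a

theorem M_refl (a : MS) : lift Pt.ref a a := by
  obtain ⟨f, rfl⟩ := mk_surj a
  rw [lift_mk]
  exact Filter.Eventually.of_forall fun n => Pt.ref_refl _

theorem M_trans (a b c : MS) (h : lift Pt.ref a b) (h' : lift Pt.ref b c) :
    lift Pt.ref a c := by
  obtain ⟨f, rfl⟩ := mk_surj a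
  obtain ⟨g, rfl⟩ := mk_surj b
  obtain ⟨k, rfl⟩ := mk_surj c
  rw [lift_mk] at *
  filter_upwards [h, h'] with n h1 h2 using Pt.ref_trans _ _ _ h1 h2

theorem M_antisymm (a b : MS) (h : lift Pt.ref a b) (h' : lift Pt.ref b a) : a = b := by
  obtain ⟨f, rfl⟩ := mk_surj a
  obtain ⟨g, rfl⟩ := mk_surj b
  rw [lift_mk] at *
  rw [mk_eq]
  filter_upwards [h, h'] with n h1 h2 using Pt.ref_antisymm _ _ h1 h2

theorem M_C1 (x x' y : MS) (h : lift Pt.ref x' x) (hR : lift Pt.R x' y) : lift Pt.R x y := by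
  obtain ⟨f, rfl⟩ := mk_surj x
  obtain ⟨g, rfl⟩ := mk_surj x'
  obtain ⟨k, rfl⟩ := mk_surj y
  rw [lift_mk] at *
  filter_upwards [h, hR] with n h1 h2 using Pt.R_C1 _ _ _ h1 h2

theorem M_C2 (x y y' : MS) (hR : lift Pt.R x y) (h : lift Pt.ref y' y) : y' = y := by
  obtain ⟨f, rfl⟩ := mk_surj x
  obtain ⟨g, rfl⟩ := mk_surj y
  obtain ⟨k, rfl⟩ := mk_surj y'
  rw [lift_mk] at *
  rw [mk_eq]
  filter_upwards [h, hR] with n h1 h2 using Pt.R_C2 _ _ _ h2 h1

theorem M_C3 (x y : MS) (hR : lift Pt.R x y) :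
    ∃ x', lift Pt.ref x' x ∧ ∀ x'', lift Pt.ref x'' x' → lift Pt.R x'' y := by
  obtain ⟨f, rfl⟩ := mk_surj x
  obtain ⟨g, rfl⟩ := mk_surj y
  rw [lift_mk] at hR
  classical
  have hch : ∀ n, ∃ p : Pt, (Pt.R (f n) (g n) → Pt.ref p (f n) ∧
      ∀ x'' : Pt, x''.ref p → x''.R (g n)) := by
    intro n
    by_cases hn : Pt.R (f n) (g n)
    · obtain ⟨p, hp⟩ := Pt.R_C3 _ _ hn
      exact ⟨p, fun _ => hp⟩
    · exact ⟨.dead, fun h => absurd h hn⟩
  choose p hp using hch
  refine ⟨mk p, ?_, ?_⟩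
  · rw [lift_mk]
    filter_upwards [hR] with n h1 using (hp n h1).1
  · intro x'' hx''
    obtain ⟨k, rfl⟩ := mk_surj x''
    rw [lift_mk] at hx'' ⊢
    filter_upwards [hR, hx''] with n h1 h2 using (hp n h1).2 _ h2

/-- The ultrapower as a full possibility frame. -/
@[reducible] def F1 : FullPossibilityFrame.{u, 0} I where
  S := MS
  nonempty := ⟨mk fun _ => .dead⟩
  ref := lift Pt.ref
  refl := M_refl
  trans := M_trans
  antisymm := M_antisymm
  R := fun _ => lift Pt.R
  closed := fun _ X _ => closed_of M_C1 M_refl M_C3 X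

/-- first-order structure on the points of the base frame -/
@[instance_reducible] def ptStr : (possLang I).Structure Pt := (F0 I).str

attribute [local instance] ptStr

instance : Nonempty Pt := ⟨.dead⟩

theorem F1_models_iff (α : (possLang I).Sentence) : (F1 I).Models α ↔ (F0 I).Models α := by
  have hstr : (F1 I).str = (Ultraproduct.structure :
      (possLang I).Structure (((Filter.hyperfilter ℕ : Ultrafilter ℕ) : Filter ℕ).Product
        (fun _ : ℕ => Pt))) := by
    apply Structure.ext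
    · funext n f
      exact Empty.elim f
    · funext n r xs
      have hch : ∀ j, ∃ f, mk f = xs j := fun j => mk_surj (xs j)
      choose f hf using hch
      have hxs : xs = fun j => mk (f j) := by
        funext j
        exact (hf j).symm
      subst hxs
      apply propext
      refine Iff.trans ?_ (@relMap_quotient_mk' (possLang I) _ _
        (Ultraproduct.setoidPrestructure (fun _ : ℕ => Pt) (Filter.hyperfilter ℕ)) n r f).symm
      cases r with
      | R i => exact lift_mk Pt.R (f 0) (f 1)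
      | ref => exact lift_mk Pt.ref (f 0) (f 1)
  unfold FullPossibilityFrame.Models
  rw [hstr]
  rw [Ultraproduct.sentence_realize]
  simp

/-- the root of the Cohen part -/
noncomputable def ss : MS := mk fun _ => .fin []
/-- descending nodes of nonstandard level -/
noncomputable def yy (k : ℕ) : MS := mk fun n => .node (n - k) false
/-- the dead end -/
noncomputable def dd : MS := mk fun _ => .dead
/-- level zero -/
noncomputable def ll : MS := mk fun _ => .lev 0
/-- a node of level zero -/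
noncomputable def n0 : MS := mk fun _ => .node 0 false

theorem ref_const {f : ℕ → Pt} {a : MS} (hf : ∀ n, ∀ s, f n ≠ .fin s)
    (h : lift Pt.ref a (mk f)) : a = mk f := by
  obtain ⟨g, rfl⟩ := mk_surj a
  rw [lift_mk] at h
  rw [mk_eq]
  filter_upwards [h] with n hn
  exact F0_atom.{0} (I := PUnit) (f n) (hf n) (g n) hn

theorem yy_atom (k : ℕ) : IsAtomPt (F1 I) (yy k) := fun _ h => ref_const (by simp) h
theorem dd_atom : IsAtomPt (F1 I) dd := fun _ h => ref_const (by simp) h
theorem ll_atom : IsAtomPt (F1 I) ll := fun _ h => ref_const (by simp) h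
theorem n0_atom : IsAtomPt (F1 I) n0 := fun _ h => ref_const (by simp) h

theorem yy_up (k : ℕ) (a : MS) (h : lift Pt.ref (yy k) a) : a = yy k := by
  obtain ⟨g, rfl⟩ := mk_surj a
  unfold yy at h ⊢
  rw [lift_mk] at h
  rw [mk_eq]
  filter_upwards [h] with n hn
  cases hg : g n <;> rw [hg] at hn <;> simp_all [Pt.ref]

theorem F1_hat : ∀ (i : I) (x y y' : (F1 I).S), (F1 I).R i x y → (F1 I).ref y' y → y' = y :=
  fun _ x y y' => M_C2 x y y'

/-- the valuation -/
def qq : Set MS := {z | ∃ k, z = yy k}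

theorem qq_ro : IsRO (F1 I).ref qq := by
  apply ro_iff
  · rintro x x' ⟨k, rfl⟩ h
    exact ⟨k, yy_atom I k _ h⟩
  · intro x h
    obtain ⟨x'', h1, k, rfl⟩ := h x (M_refl x)
    exact ⟨k, yy_up k x h1⟩

theorem dd_dead (z : MS) : ¬ lift Pt.R dd z := by
  intro h
  obtain ⟨g, rfl⟩ := mk_surj z
  unfold dd at h
  rw [lift_mk] at h
  obtain ⟨n, hn⟩ := h.exists
  cases hg : g n <;> rw [hg] at hn <;> simp [Pt.R] at hn

theorem F1_eta_of (i : I) (V : ℕ → Set MS) {x : MS} (ha : IsAtomPt (F1 I) x)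
    (hx : lift Pt.R x dd) : (F1 I).Forces V x (eta i) := by
  unfold eta
  rw [atom_dia V (F1_hat I) ha]
  refine ⟨dd, hx, ?_⟩
  intro z hz
  exact absurd hz (dd_dead z)

theorem yy_eta (i : I) (V : ℕ → Set MS) (k : ℕ) : (F1 I).Forces V (yy k) (eta i) := by
  apply F1_eta_of I i V (yy_atom I k)
  unfold yy dd
  rw [lift_mk]
  exact Filter.Eventually.of_forall fun n => trivial

theorem n0_eta (i : I) (V : ℕ → Set MS) : (F1 I).Forces V n0 (eta i) := by
  apply F1_eta_of I i V (n0_atom I)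
  unfold n0 dd
  rw [lift_mk]
  exact Filter.Eventually.of_forall fun n => trivial

theorem ll_not_eta (i : I) (V : ℕ → Set MS) : ¬ (F1 I).Forces V ll (eta i) := by
  unfold eta
  rw [atom_dia V (F1_hat I) (ll_atom I)]
  rintro ⟨y, hy, hb⟩
  obtain ⟨g, rfl⟩ := mk_surj y
  have hy' : lift Pt.R ll (mk g) := hy
  have hd : lift Pt.R (mk g) dd := by
    unfold ll at hy'
    unfold dd
    rw [lift_mk] at hy' ⊢
    filter_upwards [hy'] with n hn
    cases hg : g n <;> rw [hg] at hn <;> simp_all [Pt.R]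
  exact forces_bot (F1 I) V dd (hb dd hd)

theorem ss_sig (i : I) (V : ℕ → Set MS) : (F1 I).Forces V ss (sig i) := by
  unfold sig
  rw [forces_dia _ _ (F1_hat I)]
  intro x' hx'
  refine ⟨ll, ?_, ?_⟩
  · obtain ⟨g, rfl⟩ := mk_surj x'
    have hx2 : lift Pt.ref (mk g) ss := hx'
    unfold ss at hx2
    show lift Pt.R (mk g) ll
    unfold ll
    rw [lift_mk] at hx2 ⊢
    filter_upwards [hx2] with n hn
    cases hg : g n <;> rw [hg] at hn <;> simp_all [Pt.R, Pt.ref]
  · rw [forces_and, atom_neg V (ll_atom I), atom_dia V (F1_hat I) (ll_atom I)]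
    refine ⟨ll_not_eta I i V, n0, ?_, n0_eta I i V⟩
    show lift Pt.R ll n0
    unfold ll n0
    rw [lift_mk]
    exact Filter.Eventually.of_forall fun n => rfl

theorem ss_yy : lift Pt.R ss (yy 0) := by
  unfold ss yy
  rw [lift_mk]
  refine Filter.Eventually.of_forall fun n => ?_
  intro c hc
  simp at hc

theorem yy_yy (k : ℕ) : lift Pt.R (yy k) (yy (k + 1)) := by
  unfold yy
  rw [lift_mk]
  have h1 : ∀ᶠ n in ((Filter.hyperfilter ℕ : Ultrafilter ℕ) : Filter ℕ), k < n := by
    apply Filter.mem_hyperfilter_of_finite_compl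
    apply (Set.finite_Iic k).subset
    intro n hn
    simpa using hn
  filter_upwards [h1] with n hn
  show n - (k + 1) < n - k
  omega

theorem F1_not_valid (i : I) : ¬ (F1 I).Valid (wit i) := by
  intro h
  have hV : ∀ p : ℕ, IsRO (F1 I).ref ((fun _ : ℕ => qq) p) := fun _ => qq_ro I
  have h1 := h (fun _ => qq) hV ss
  unfold wit at h1
  rw [forces_imp _ _ hV] at h1
  have h4 := (h1 ss (M_refl ss) (ss_sig I i _)).2.2
  unfold A4 at h4
  rw [forces_box] at h4
  have h5 := h4 (yy 0) ss_yy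
  have hyq : ∀ k, (F1 I).Forces (fun _ => qq) (yy k) (dia i (.and (eta i) (.var 0))) := by
    intro k
    rw [atom_dia _ (F1_hat I) (yy_atom I k)]
    exact ⟨yy (k + 1), yy_yy k, yy_eta I i _ (k + 1), ⟨k + 1, rfl⟩⟩
  rw [atom_imp _ (yy_atom I 0), atom_imp _ (yy_atom I 0),
    atom_dia _ (F1_hat I) (yy_atom I 0), atom_dia _ (F1_hat I) (yy_atom I 0)] at h5
  obtain ⟨z, -, hz⟩ := h5 (yy_eta I i _ 0) ⟨yy 1, yy_yy 0, yy_eta I i _ 1, ⟨1, rfl⟩⟩
  rw [forces_and] at hz
  obtain ⟨⟨hz1, hz2⟩, hz3⟩ := hz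
  obtain ⟨k, rfl⟩ : z ∈ qq := hz2
  rw [atom_neg _ (yy_atom I k)] at hz3
  exact hz3 (hyq k)

end Ultra

/-- The witness formula has a first-order correspondent over Kripke frames. -/
theorem kripke_corr {I : Type u} (i : I) (F : KripkeFrame.{u, v} I) :
    F.Valid (wit i) ↔ F.Models (kSent i) := by
  rw [kripke_valid_iff, kripke_models_iff]

/-- The witness formula has no first-order correspondent over full possibility frames. -/
theorem poss_not_corr {I : Type u} (i : I) :
    ¬ ∃ α : (possLang I).Sentence, ∀ F : FullPossibilityFrame.{u, 0} I,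
      F.Valid (wit i) ↔ F.Models α := by
  rintro ⟨α, hα⟩
  have h0 := (hα (F0 I)).1 (F0_valid i)
  have h1 := (F1_models_iff I α).2 h0
  exact F1_not_valid I i ((hα (F1 I)).2 h1)

end Pool.Agent.Work.MP_156542_lc
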